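import Mathlib
import Pool.Agent.J4H20.CI.Lin
import Pool.Agent.TH607.Fx.Quot

/-! Project CI (helper20, MP_e3ee0c_gt), part NC: a strict action on an invariant submanifold. -/

open scoped Topology ContDiff Manifold
open Set Metric Pool.Agent.Helper186 Pool.Agent.H826R2.Wein
open Pool.Agent.J4H20.CI

noncomputable section

namespace Pool.Agent.J4H64.CI

set_option linter.unusedSectionVars false

universe u v

variable {E : Type u} [NormedAddCommGroup E] [NormedSpace ℝ E] [FiniteDimensional ℝ E]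
  {M : Type v} [TopologicalSpace M] [ChartedSpace E M] [IsManifold 𝓘(ℝ, E) ∞ M] {m : ℕ}
  {β : (x : M) → TangentSpace 𝓘(ℝ, E) x →L[ℝ] ℝ} (A : VS β m)
  {E' : Type*} [NormedAddCommGroup E'] [NormedSpace ℝ E'] [FiniteDimensional ℝ E']
  {C : Set M} (S : TH607.Slices (E := E) E' C) [cs : ChartedSpace E' C] (hS : cs = S.charted)
  (hinv : ∀ θ, ∀ x ∈ C, A.act θ x ∈ C)

/-- the derivative of the inclusion -/
def Dv (x : C) : E' →L[ℝ] E := mfderiv 𝓘(ℝ, E') 𝓘(ℝ, E) (Subtype.val : C → M) x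

/-- the restricted action -/
def bact (θ : Fin m → ℝ) (x : C) : C := ⟨A.act θ x, hinv θ x x.2⟩

include hS in
lemma smooth_bact : ContMDiff (𝓘(ℝ, Fin m → ℝ).prod 𝓘(ℝ, E')) 𝓘(ℝ, E') ∞
    (fun p : (Fin m → ℝ) × C => bact A hinv p.1 p.2) := by
  apply S.ofVal hS
  exact A.smooth.comp (contMDiff_fst.prodMk ((S.val hS).comp contMDiff_snd))

/-- the restricted action as a strict action -/
def B : VS (pullForm 𝓘(ℝ, E) 𝓘(ℝ, E') (Subtype.val : C → M) β) m where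
  act := bact A hinv
  smooth := smooth_bact A S hS hinv
  zero x := Subtype.ext (A.zero x)
  add θ θ' x := Subtype.ext (A.add θ θ' x)
  strict := by
    intro θ x u
    have h1 : HasMFDerivAt 𝓘(ℝ, E') 𝓘(ℝ, E') (bact A hinv θ) x
        (mfderiv 𝓘(ℝ, E') 𝓘(ℝ, E') (bact A hinv θ) x) := by
      have h2 : ContMDiff 𝓘(ℝ, E') 𝓘(ℝ, E') ∞ (bact A hinv θ) :=
        (smooth_bact A S hS hinv).comp (contMDiff_const.prodMk contMDiff_id)
      exact (h2.mdifferentiableAt (by simp)).hasMFDerivAt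
    have h2 : HasMFDerivAt 𝓘(ℝ, E') 𝓘(ℝ, E) (Subtype.val : C → M) (bact A hinv θ x)
        (mfderiv 𝓘(ℝ, E') 𝓘(ℝ, E) (Subtype.val : C → M) (bact A hinv θ x)) :=
      ((S.val hS).mdifferentiableAt (by simp)).hasMFDerivAt
    have h3 := HasMFDerivAt.comp x h2 h1
    have h4 : HasMFDerivAt 𝓘(ℝ, E') 𝓘(ℝ, E) (Subtype.val : C → M) x
        (mfderiv 𝓘(ℝ, E') 𝓘(ℝ, E) (Subtype.val : C → M) x) :=
      ((S.val hS).mdifferentiableAt (by simp)).hasMFDerivAt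
    have h5 : HasMFDerivAt 𝓘(ℝ, E) 𝓘(ℝ, E) (A.act θ) (x : M)
        (mfderiv 𝓘(ℝ, E) 𝓘(ℝ, E) (A.act θ) (x : M)) :=
      ((A.smooth_right θ).mdifferentiableAt (by simp)).hasMFDerivAt
    have h6 := HasMFDerivAt.comp x h5 h4
    have h7 := DFunLike.congr_fun (hasMFDerivAt_unique h3 h6) u
    have h8 := A.strict θ (x : M) (mfderiv 𝓘(ℝ, E') 𝓘(ℝ, E) (Subtype.val : C → M) x u)
    refine Eq.trans ?_ h8
    exact congrArg (fun w : E => β (A.act θ (x : M)) w) h7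

lemma B_act (θ : Fin m → ℝ) (x : C) : (((B A S hS hinv).act θ x : C) : M) = A.act θ x := rfl

/-- the generators are related -/
lemma Dv_X (c : Fin m → ℝ) (x : C) :
    (Dv (E := E) (E' := E') x ((B A S hS hinv).X c x) : E) = A.X c (x : M) := by
  have h1 : HasMFDerivAt 𝓘(ℝ, Fin m → ℝ) 𝓘(ℝ, E') (fun θ => bact A hinv θ x) 0
      (mfderiv 𝓘(ℝ, Fin m → ℝ) 𝓘(ℝ, E') (fun θ => bact A hinv θ x) 0) := by
    have h2 : ContMDiff 𝓘(ℝ, Fin m → ℝ) 𝓘(ℝ, E') ∞ (fun θ => bact A hinv θ x) :=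
      (smooth_bact A S hS hinv).comp (contMDiff_id.prodMk contMDiff_const)
    exact (h2.mdifferentiableAt (by simp)).hasMFDerivAt
  have h2 : HasMFDerivAt 𝓘(ℝ, E') 𝓘(ℝ, E) (Subtype.val : C → M) (bact A hinv 0 x)
      (mfderiv 𝓘(ℝ, E') 𝓘(ℝ, E) (Subtype.val : C → M) (bact A hinv 0 x)) :=
    ((S.val hS).mdifferentiableAt (by simp)).hasMFDerivAt
  have h3 := HasMFDerivAt.comp (0 : Fin m → ℝ) h2 h1
  have h5 : HasMFDerivAt 𝓘(ℝ, Fin m → ℝ) 𝓘(ℝ, E) (fun θ => A.act θ (x : M)) 0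
      (mfderiv 𝓘(ℝ, Fin m → ℝ) 𝓘(ℝ, E) (fun θ => A.act θ (x : M)) 0) :=
    ((A.smooth_left _).mdifferentiableAt (by simp)).hasMFDerivAt
  have h7 := DFunLike.congr_fun (hasMFDerivAt_unique h3 h5) c
  have h8 : ∀ y : C, y = x → ∀ w : E', (mfderiv 𝓘(ℝ, E') 𝓘(ℝ, E) (Subtype.val : C → M) y w : E) =
      Dv (E := E) (E' := E') x w := by
    rintro _ rfl w; rfl
  have h9 : bact A hinv 0 x = x := Subtype.ext (A.zero x)
  exact (h8 _ h9 _).symm.trans h7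

lemma B_H (c : Fin m → ℝ) (x : C) : (B A S hS hinv).H c x = A.H c (x : M) :=
  congrArg (fun w : E => β (x : M) w) (Dv_X A S hS hinv c x)

include hS in
/-- derivative of a restricted function -/
lemma dForm_val {g : M → ℝ} (hg : ContMDiff 𝓘(ℝ, E) 𝓘(ℝ, ℝ) ∞ g) (x : C) (u : E') :
    dForm 𝓘(ℝ, E') (g ∘ (Subtype.val : C → M)) x u =
      dForm 𝓘(ℝ, E) g (x : M) (Dv (E := E) (E' := E') x u) := by
  have h1 : mfderiv 𝓘(ℝ, E') 𝓘(ℝ, ℝ) (g ∘ (Subtype.val : C → M)) x =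
      (mfderiv 𝓘(ℝ, E) 𝓘(ℝ, ℝ) g (x : M)).comp
        (mfderiv 𝓘(ℝ, E') 𝓘(ℝ, E) (Subtype.val : C → M) x) :=
    mfderiv_comp _ (hg.mdifferentiableAt (by simp)) ((S.val hS).mdifferentiableAt (by simp))
  exact DFunLike.congr_fun h1 u

include hS in
/-- tangent vectors of the submanifold in the slice chart -/
lemma Dv_slice (x : C) (u : E') :
    (S.s x).j ((S.s x).p (mfderiv 𝓘(ℝ, E) 𝓘(ℝ, E) (S.s x).φ (x : M)
      (Dv (E := E) (E' := E') x u))) =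
      (mfderiv 𝓘(ℝ, E) 𝓘(ℝ, E) (S.s x).φ (x : M) (Dv (E := E) (E' := E') x u) : E) := by
  have hv : HasMFDerivAt 𝓘(ℝ, E') 𝓘(ℝ, E) (Subtype.val : C → M) x
      (mfderiv 𝓘(ℝ, E') 𝓘(ℝ, E) (Subtype.val : C → M) x) :=
    ((S.val hS).mdifferentiableAt (by simp)).hasMFDerivAt
  have hφ : HasMFDerivAt 𝓘(ℝ, E) 𝓘(ℝ, E) (S.s x).φ (x : M)
      (mfderiv 𝓘(ℝ, E) 𝓘(ℝ, E) (S.s x).φ (x : M)) :=
    (((S.s x).smooth.contMDiffAt ((S.s x).φ.open_source.mem_nhds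
      (S.s x).mem)).mdifferentiableAt (by simp)).hasMFDerivAt
  have hjp : HasMFDerivAt 𝓘(ℝ, E) 𝓘(ℝ, E) ((S.s x).j ∘L (S.s x).p) ((S.s x).φ (x : M))
      ((S.s x).j ∘L (S.s x).p) := ((S.s x).j ∘L (S.s x).p).hasFDerivAt.hasMFDerivAt
  have h1 := HasMFDerivAt.comp x (g := (S.s x).φ) (f := (Subtype.val : C → M)) hφ hv
  have h2 := HasMFDerivAt.comp x (g := ((S.s x).j ∘L (S.s x).p : E → E))
    (f := (S.s x).φ ∘ (Subtype.val : C → M)) hjp h1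
  have h4 : ((S.s x).φ ∘ (Subtype.val : C → M)) =ᶠ[𝓝 x]
      (((S.s x).j ∘L (S.s x).p : E → E) ∘ (S.s x).φ ∘ (Subtype.val : C → M)) := by
    have h5 : {y : C | (y : M) ∈ (S.s x).φ.source} ∈ 𝓝 x :=
      ((S.s x).φ.open_source.preimage continuous_subtype_val).mem_nhds (S.s x).mem
    filter_upwards [h5] with y hy
    exact (((S.s x).iff _ hy).1 y.2).symm
  have h5 := h2.congr_of_eventuallyEq h4
  have h6 := hasMFDerivAt_unique h5 h1
  exact DFunLike.congr_fun h6 u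

end Pool.Agent.J4H64.CI
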