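import Mathlib
import Pool.Agent.J4H64.CI.Nc1

/-! Project CI (helper20, MP_e3ee0c_gt), part NC: the contact submanifold of lowest rank. -/

open scoped Topology ContDiff Manifold
open Set Metric Pool.Agent.Helper186 Pool.Agent.H826R2.Wein
open Pool.Agent.J4H20.CI

noncomputable section

namespace Pool.Agent.J4H64.CI

set_option linter.unusedSectionVars false

universe u v

/-- a dimension count -/
lemma lin_key {E E' : Type*} [AddCommGroup E] [Module ℝ E] [FiniteDimensional ℝ E]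
    [AddCommGroup E'] [Module ℝ E'] [FiniteDimensional ℝ E'] (D : E' →ₗ[ℝ] E)
    (hD : Function.Injective D) {m : ℕ} (L : (Fin m → ℝ) →ₗ[ℝ] Module.Dual ℝ E)
    (K : Submodule ℝ E) (hK : ∀ v, (∀ c, L c (D v) = 0) → D v ∈ K) (d : ℕ)
    (hKd : Module.finrank ℝ K ≤ d) (hE' : Module.finrank ℝ E' = 2 * d - 1)
    (hL : Module.finrank ℝ (LinearMap.range L) + 1 = d) (c : Fin m → ℝ)
    (hc : ∀ v, L c (D v) = 0) : L c = 0 := by
  let L' : (Fin m → ℝ) →ₗ[ℝ] Module.Dual ℝ E' := D.dualMap ∘ₗ L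
  have h1 : Module.finrank ℝ (LinearMap.range L') +
      Module.finrank ℝ (LinearMap.range L').dualCoannihilator = Module.finrank ℝ E' :=
    Subspace.finrank_add_finrank_dualCoannihilator_eq _
  have h2 : Module.finrank ℝ (LinearMap.range L').dualCoannihilator ≤ d := by
    have h3 : Submodule.map D (LinearMap.range L').dualCoannihilator ≤ K := by
      rintro _ ⟨v, hv, rfl⟩
      have hv' := (Submodule.mem_dualCoannihilator _).1 hv
      exact hK v fun c' => hv' _ ⟨c', rfl⟩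
    have h4 := Submodule.finrank_mono h3
    rw [← LinearEquiv.finrank_eq (Submodule.equivMapOfInjective D hD _)] at h4
    omega
  have h3 := LinearMap.finrank_range_add_finrank_ker L
  have h4 := LinearMap.finrank_range_add_finrank_ker L'
  have h5 : LinearMap.ker L ≤ LinearMap.ker L' := by
    intro c hc
    rw [LinearMap.mem_ker] at hc ⊢
    show D.dualMap (L c) = 0
    rw [hc, map_zero]
  have h6 : LinearMap.ker L = LinearMap.ker L' :=
    Submodule.eq_of_le_of_finrank_le h5 (by omega)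
  have h7 : c ∈ LinearMap.ker L' := by
    rw [LinearMap.mem_ker]
    exact LinearMap.ext fun v => hc v
  rw [← h6, LinearMap.mem_ker] at h7
  exact h7

section

variable {E : Type u} [NormedAddCommGroup E] [NormedSpace ℝ E] [FiniteDimensional ℝ E]
  {M : Type v} [TopologicalSpace M] [ChartedSpace E M] [IsManifold 𝓘(ℝ, E) ∞ M] {m : ℕ}
  {β : (x : M) → TangentSpace 𝓘(ℝ, E) x →L[ℝ] ℝ} (hc : IsContact β)
  (A : VS β m) {κ₀ : Fin m → ℝ} (hR : IsReeb β (A.X κ₀))
  {E' : Type*} [NormedAddCommGroup E'] [NormedSpace ℝ E'] [FiniteDimensional ℝ E']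
  {C : Set M} (S : TH607.Slices (E := E) E' C) [cs : ChartedSpace E' C] (hS : cs = S.charted)
  [IsManifold 𝓘(ℝ, E') ∞ C]
  (hinv : ∀ θ, ∀ x ∈ C, A.act θ x ∈ C)

include hS in
lemma extDer_val (hβ : SmoothForm β) (x : C) (u v : E') :
    extDer 𝓘(ℝ, E') (pullForm 𝓘(ℝ, E) 𝓘(ℝ, E') (Subtype.val : C → M) β) x u v =
      extDer 𝓘(ℝ, E) β (x : M) (Dv (E := E) (E' := E') x u) (Dv (E := E) (E' := E') x v) :=
  extDer_pull (S.val hS) hβ x u v

include hS in
lemma Dv_inj (x : C) : Function.Injective (Dv (E := E) (E' := E') x) := S.inj hS x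

include hc hR in
lemma reebB : IsReeb (pullForm 𝓘(ℝ, E) 𝓘(ℝ, E') (Subtype.val : C → M) β)
    ((B A S hS hinv).X κ₀) := by
  constructor
  · intro x
    have h1 : pullForm 𝓘(ℝ, E) 𝓘(ℝ, E') (Subtype.val : C → M) β x ((B A S hS hinv).X κ₀ x) =
        β (x : M) (A.X κ₀ (x : M)) :=
      congrArg (fun w : E => β (x : M) w) (Dv_X A S hS hinv κ₀ x)
    rw [h1]
    exact hR.unit _
  · intro x v
    have h1 := extDer_val S hS hc.smooth x ((B A S hS hinv).X κ₀ x) v
    have h2 : extDer 𝓘(ℝ, E) β (x : M) (Dv (E := E) (E' := E') x ((B A S hS hinv).X κ₀ x))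
        (Dv (E := E) (E' := E') x v) =
        extDer 𝓘(ℝ, E) β (x : M) (A.X κ₀ (x : M)) (Dv (E := E) (E' := E') x v) :=
      congrArg (fun w : E => extDer 𝓘(ℝ, E) β (x : M) w (Dv (E := E) (E' := E') x v))
        (Dv_X A S hS hinv κ₀ x)
    exact h1.trans (h2.trans (hR.kernel _ _))

/-- the orbits have the same dimension -/
lemma odB (x : C) : (B A S hS hinv).od x = A.od (x : M) := by
  have h1 : LinearMap.range (A.XL (x : M)) =
      Submodule.map (Dv (E := E) (E' := E') x : E' →ₗ[ℝ] E)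
        (LinearMap.range ((B A S hS hinv).XL x)) := by
    ext w
    simp only [LinearMap.mem_range, Submodule.mem_map]
    constructor
    · rintro ⟨c, rfl⟩
      exact ⟨_, ⟨c, rfl⟩, Dv_X A S hS hinv c x⟩
    · rintro ⟨_, ⟨c, rfl⟩, rfl⟩
      exact ⟨c, (Dv_X A S hS hinv c x).symm⟩
  unfold VA.od
  rw [h1]
  exact (LinearEquiv.finrank_eq (Submodule.equivMapOfInjective
    (Dv (E := E) (E' := E') x : E' →ₗ[ℝ] E) (Dv_inj S hS x) _))

include hc hR hS hinv in
lemma contactB (d : ℕ) (hE' : Module.finrank ℝ E' = 2 * d - 1) (hod : ∀ x ∈ C, A.od x = d)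
    (hT : ∀ (a : C) (u : E), (S.s a).j ((S.s a).p (mfderiv 𝓘(ℝ, E) 𝓘(ℝ, E) (S.s a).φ (a : M) u)) =
        (mfderiv 𝓘(ℝ, E) 𝓘(ℝ, E) (S.s a).φ (a : M) u : E) →
      (∀ c, dForm 𝓘(ℝ, E) (A.H c) (a : M) u = 0) → ∃ c, (A.X c (a : M) : E) = u) :
    IsContact (pullForm 𝓘(ℝ, E) 𝓘(ℝ, E') (Subtype.val : C → M) β) := by
  have hreeb := reebB hc A hR S hS hinv
  refine ⟨smoothForm_pull (S.val hS) hc.smooth, ?_, ?_⟩
  · intro x h0
    have h1 := hreeb.unit x
    rw [h0] at h1
    exact zero_ne_one h1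
  · intro x u hu hext
    obtain ⟨w, hw⟩ : ∃ w : E, Dv (E := E) (E' := E') x u = w := ⟨_, rfl⟩
    -- the form vanishes on all vectors
    have hall : ∀ v : E', extDer 𝓘(ℝ, E') (pullForm 𝓘(ℝ, E) 𝓘(ℝ, E')
        (Subtype.val : C → M) β) x u v = 0 := by
      intro v
      set γ := pullForm 𝓘(ℝ, E) 𝓘(ℝ, E') (Subtype.val : C → M) β with hγ
      obtain ⟨r, hr⟩ : ∃ r : E', ((B A S hS hinv).X κ₀ x : E') = r := ⟨_, rfl⟩
      have e1 : γ x r = 1 := by rw [← hr]; exact hreeb.unit x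
      have e2 : extDer 𝓘(ℝ, E') γ x u r = 0 := by
        rw [← hr, extDer_antisymm, hreeb.kernel, neg_zero]
      have gen : ∀ (b k : E' →L[ℝ] ℝ), k (v - b v • r) = k v - b v * k r := by
        intro b k
        rw [map_sub, map_smul]; rfl
      have e3 : γ x (v - (γ x v : ℝ) • r : E') = 0 := by
        have h6 : γ x (v - (γ x v : ℝ) • r : E') = γ x v - γ x v * γ x r :=
          gen (show E' →L[ℝ] ℝ from γ x) (show E' →L[ℝ] ℝ from γ x)
        rw [h6, e1]
        ring
      have e4 := hext _ e3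
      have e5 : extDer 𝓘(ℝ, E') γ x u (v - (γ x v : ℝ) • r : E') =
          extDer 𝓘(ℝ, E') γ x u v - γ x v * extDer 𝓘(ℝ, E') γ x u r := by
        have h6 := gen (show E' →L[ℝ] ℝ from γ x) (show E' →L[ℝ] ℝ from extDerL 𝓘(ℝ, E') γ x u)
        exact h6
      rw [e5, e2] at e4
      linarith
    have hall' : ∀ v : E', extDer 𝓘(ℝ, E) β (x : M) w (Dv (E := E) (E' := E') x v) = 0 := by
      intro v
      rw [← hw]
      exact (extDer_val S hS hc.smooth x u v).symm.trans (hall v)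
    have hdw : ∀ c, dForm 𝓘(ℝ, E) (A.H c) (x : M) w = 0 := by
      intro c
      have h1 := hall' ((B A S hS hinv).X c x)
      have h2 : extDer 𝓘(ℝ, E) β (x : M) w (Dv (E := E) (E' := E') x ((B A S hS hinv).X c x)) =
          extDer 𝓘(ℝ, E) β (x : M) w (A.X c (x : M)) :=
        congrArg (fun v : E => extDer 𝓘(ℝ, E) β (x : M) w v) (Dv_X A S hS hinv c x)
      have h3 := A.dH hc.smooth c (x : M) w
      have h4 := extDer_antisymm (β := β) (x : M) (A.X c (x : M)) w
      have h5 : extDer 𝓘(ℝ, E) β (x : M) w (A.X c (x : M)) = 0 := h2.symm.trans h1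
      refine h3.trans ?_
      rw [h4, neg_neg]
      exact h5
    have hsl := Dv_slice S hS x u
    rw [hw] at hsl
    obtain ⟨c, hcw⟩ := hT x w hsl hdw
    have hH : A.H c (x : M) = 0 := by
      have h1 : A.H c (x : M) = β (x : M) w := congrArg (fun w : E => β (x : M) w) hcw
      have h2 : β (x : M) w = pullForm 𝓘(ℝ, E) 𝓘(ℝ, E') (Subtype.val : C → M) β x u :=
        congrArg (fun w : E => β (x : M) w) hw.symm
      rw [h1, h2, hu]
    have hdT : ∀ v : E', A.dHL (x : M) c (Dv (E := E) (E' := E') x v) = 0 := by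
      intro v
      have h1 := hall' v
      have h2 : A.dHL (x : M) c (Dv (E := E) (E' := E') x v) =
        - extDer 𝓘(ℝ, E) β (x : M) (A.X c (x : M)) (Dv (E := E) (E' := E') x v) := rfl
      have h3 : extDer 𝓘(ℝ, E) β (x : M) (A.X c (x : M)) (Dv (E := E) (E' := E') x v) =
        extDer 𝓘(ℝ, E) β (x : M) w (Dv (E := E) (E' := E') x v) :=
        congrArg (fun w : E => extDer 𝓘(ℝ, E) β (x : M) w (Dv (E := E) (E' := E') x v)) hcw
      rw [h2, h3, h1, neg_zero]
    -- the restriction of the differentials is injective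
    have hdL : A.dHL (x : M) c = 0 := by
      refine lin_key (Dv (E := E) (E' := E') x : E' →ₗ[ℝ] E) (Dv_inj S hS x) (A.dHL (x : M))
        (LinearMap.range (A.XL (x : M))) ?_ d (hod x x.2).le hE' ?_ c hdT
      · intro v hv
        have h2 : ∀ c', dForm 𝓘(ℝ, E) (A.H c') (x : M) (Dv (E := E) (E' := E') x v) = 0 := by
          intro c'
          rw [← A.dHL_apply hc.smooth]
          exact hv c'
        obtain ⟨c', hc'⟩ := hT x _ (Dv_slice S hS x v) h2
        exact ⟨c', hc'⟩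
      · rw [A.finrank_dHL hc hR (x : M)]
        exact hod x x.2
    have hX : A.X c (x : M) = 0 := (A.X_eq_zero_iff hc hR).2 ⟨hH, hdL⟩
    have hw0 : w = 0 := hcw.symm.trans hX
    exact Dv_inj S hS x (hw.trans (hw0.trans (map_zero (Dv (E := E) (E' := E') x)).symm))

end

theorem t_NC : Pool.Agent.J4H20.CI.S_NC.{u, v} := by
  intro E _ _ _ M _ _ _ _ β hc m A κ₀ hR d C hCc hCn hinv hod S hT
  let cs : ChartedSpace (Fin (2 * d - 1) → ℝ) C := S.charted
  have hM : IsManifold 𝓘(ℝ, Fin (2 * d - 1) → ℝ) ∞ C := S.isManifold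
  have hcomp : CompactSpace C := isCompact_iff_compactSpace.1 hCc
  have hconn : ConnectedSpace C := isConnected_iff_connectedSpace.1 hCn
  refine ⟨C, inferInstance, cs, hM, inferInstance, hcomp, hconn, Subtype.val,
    pullForm 𝓘(ℝ, E) 𝓘(ℝ, Fin (2 * d - 1) → ℝ) (Subtype.val : C → M) β,
    B A S rfl hinv, S.val rfl, fun x => x.2, fun θ x => rfl, ?_, ?_, ?_⟩
  · exact contactB hc A hR S rfl hinv d (by simp) hod hT
  · exact reebB hc A hR S rfl hinv
  · intro x
    rw [odB A S rfl hinv x]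
    exact hod x x.2

end Pool.Agent.J4H64.CI
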