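import Mathlib
import Pool.Agent.J4H20.CI.Stm

/-! Project CI (helper20, MP_e3ee0c_gt), part CC: slice charts of a connected component. -/

open scoped Topology ContDiff Manifold
open Set Metric

noncomputable section

namespace Pool.Agent.J4H64.CI

universe u v

theorem t_CC : Pool.Agent.J4H20.CI.S_CC.{u, v} := by
  intro E _ _ _ M _ _ _ k N x₀ a ha s
  have haN : a ∈ N := connectedComponentIn_subset _ _ ha
  obtain ⟨r, hr, hball⟩ := Metric.isOpen_iff.1 s.φ.open_target (s.φ a) (s.φ.map_source s.mem)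
  have hO : IsOpen (s.φ.source ∩ s.φ ⁻¹' (ball (s.φ a) r)) :=
    s.φ.isOpen_inter_preimage isOpen_ball
  set O := s.φ.source ∩ s.φ ⁻¹' (ball (s.φ a) r) with hOdef
  let φ := s.φ.restrOpen O hO
  have hsrc : ∀ x, x ∈ φ.source ↔ x ∈ s.φ.source ∧ x ∈ O := fun x => Iff.rfl
  have htgt : φ.target ⊆ s.φ.target := fun w hw => hw.1
  have haO : a ∈ O := ⟨s.mem, mem_ball_self hr⟩
  -- the piece of `N`
  have hpre : IsPreconnected (s.φ.symm '' {e | e ∈ ball (s.φ a) r ∧ s.j (s.p e) = e}) := by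
    have hconv : Convex ℝ {e | e ∈ ball (s.φ a) r ∧ s.j (s.p e) = e} := by
      intro e he e' he' α β hα hβ hαβ
      refine ⟨convex_ball _ _ he.1 he'.1 hα hβ hαβ, ?_⟩
      rw [map_add, map_add, map_smul, map_smul, map_smul, map_smul, he.2, he'.2]
    exact hconv.isPreconnected.image _
      (s.φ.symm.continuousOn_toFun.mono fun e he => hball he.1)
  have hN : (s.φ.symm '' {e | e ∈ ball (s.φ a) r ∧ s.j (s.p e) = e}) ⊆ N := by
    rintro _ ⟨e, he, rfl⟩
    have h1 : e ∈ s.φ.target := hball he.1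
    rw [s.iff _ (s.φ.map_target h1), s.φ.right_inv h1]
    exact he.2
  have hsub : (s.φ.symm '' {e | e ∈ ball (s.φ a) r ∧ s.j (s.p e) = e}) ⊆
      connectedComponentIn N x₀ := by
    rw [connectedComponentIn_eq ha]
    refine hpre.subset_connectedComponentIn ⟨s.φ a, ⟨mem_ball_self hr, ?_⟩, ?_⟩ hN
    · exact (s.iff _ s.mem).1 haN
    · exact s.φ.left_inv s.mem
  refine ⟨⟨φ, (hsrc a).2 ⟨s.mem, haO⟩, s.smooth.mono (fun x hx => ((hsrc x).1 hx).1),
    s.smooth_symm.mono htgt, s.j, s.p, s.pj, ?_⟩, rfl, rfl, rfl⟩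
  intro x hx
  obtain ⟨hx1, hx2⟩ := (hsrc x).1 hx
  constructor
  · intro h
    exact (s.iff x hx1).1 (connectedComponentIn_subset _ _ h)
  · intro h
    exact hsub ⟨s.φ x, ⟨hx2.2, h⟩, s.φ.left_inv hx1⟩

end Pool.Agent.J4H64.CI
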